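import Pool.Agent.Helper53.UR.Goals

/-!
# PROJECT UR (MP_c578c8_lc), packet FI0: the single steps outside of the main loop
-/

namespace Pool.Agent.Helper26.UR

open Pool.Agent.Helper1.TE (cif codeB)
open Pool.Agent.Helper65.LinSpace (dig nrec ifz eq01 le01 lt01 Ctx LS num)
open Pool.Agent.Helper53.CTG (De De.k De.m De.e De.f De.v De.i De.T sub root Nt Hb Et Eb Fb Gb Pb
  bigT bigX bigS bigA gadC ev op runs toF dec)
open Pool.Agent.Helper53.UR

theorem cif_z {β : Type} (x y : β) : cif 0 x y = x := rfl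

theorem cif_n {β : Type} {c : ℕ} (h : c ≠ 0) (x y : β) : cif c x y = y := if_neg h

/-- The number of a word is at least the power of two. -/
theorem num_ge (w : List Bool) : 2 ^ w.length ≤ num w := by
  induction w with
  | nil => exact le_rfl
  | cons b w ih =>
    rw [List.length_cons, pow_succ]
    show _ ≤ b.toNat + 2 * num w
    omega

/-- The number of a longer word. -/
theorem num_snoc (w : List Bool) (a : Bool) :
    num (w ++ [a]) = num w + 2 ^ w.length * (1 + a.toNat) := by
  induction w with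
  | nil =>
    show a.toNat + 2 * 1 = 1 + 2 ^ 0 * (1 + a.toNat)
    omega
  | cons b w ih =>
    show b.toNat + 2 * num (w ++ [a]) = b.toNat + 2 * num w + 2 ^ (w.length + 1) * (1 + a.toNat)
    rw [ih]
    ring

theorem num_take_succ (w : List Bool) (u : ℕ) (a : Bool) (h : w[u]? = some a) :
    num (w.take (u + 1)) = num (w.take u) + 2 ^ u * (1 + a.toNat) := by
  have hu : u < w.length := (List.getElem?_eq_some_iff.mp h).1
  have h1 : w.take (u + 1) = w.take u ++ [a] := by
    rw [List.take_add_one, h]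
    rfl
  rw [h1, num_snoc, List.length_take, min_eq_left hu.le]

section

variable {β : Type} [Ctx β] (M : UM β)

theorem nextN0 (v p u y γ : ℕ) : M.nextN (rdS v p u) y γ =
    cif y (ctS (M.I (v + (p + 1)))) (rdS (v + (y - 1) * (p + 1)) (2 * p + 1) (u + 1)) := rfl

theorem nextN1 (o : β) (y γ : ℕ) : M.nextN (ctS o) y γ =
    cif (M.h o) (mainS o γ 0 0 0 (root (M.N o) (M.q o)) 0 0 0) (cif (M.out o) rejS accS) := rfl

theorem nextN3 (y γ : ℕ) : M.nextN accS y γ = accS := rfl

theorem nextN4 (y γ : ℕ) : M.nextN rejS y γ = rejS := rfl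

theorem nx_eq (w : List Bool) (x : Sta β) (γ : ℕ) :
    M.mach.nx w x γ = M.nextM x (codeB w[x.u]?) γ := rfl

/-- The step with `γ = 0`. -/
theorem nx_zero (w : List Bool) (x : Sta β) :
    M.mach.nx w x 0 = M.nextN x (codeB w[x.u]?) 0 := by
  rw [nx_eq]
  unfold UM.nextM
  rw [Nat.zero_mul, cif_z]

/-- The step, if a bit is guessed. -/
theorem nx_gq (w : List Bool) (x : Sta β) (γ : ℕ) (h : M.gq x = 1) :
    M.mach.nx w x γ = M.nextN x (codeB w[x.u]?) γ := by
  rw [nx_eq]
  unfold UM.nextM
  rw [h, Nat.sub_self, Nat.mul_zero, cif_z]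

/-- The step with `γ = 1`, if nothing is guessed. -/
theorem nx_one (w : List Bool) (x : Sta β) (h : M.gq x = 0) :
    M.mach.nx w x 1 = cif (eq01 x.mo 3) rejS x := by
  rw [nx_eq]
  unfold UM.nextM
  rw [h]
  exact cif_n (by norm_num) _ _

theorem inv_one {w : List Bool} {x : Sta β} (hx : M.Inv w x) (h : M.gq x = 0) :
    M.Inv w (M.mach.nx w x 1) := by
  rw [nx_one M w x h]
  by_cases h8 : eq01 x.mo 3 = 0
  · rw [h8, cif_z]
    exact .rej
  · rw [cif_n h8]
    exact hx

/-- Mode 0. -/
theorem st0 (w : List Bool) (u : ℕ) (hu : u ≤ w.length) :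
    M.Inv w (M.nextN (rdS (num (w.take u) - 2 ^ u) (2 ^ u - 1) u) (codeB w[u]?) 0) := by
  have hl : (w.take u).length = u := by rw [List.length_take, min_eq_left hu]
  have h1 := num_ge (w.take u)
  rw [hl] at h1
  have h2 : 1 ≤ 2 ^ u := Nat.one_le_two_pow
  rw [nextN0, Nat.sub_add_cancel h2, Nat.sub_add_cancel h1]
  rcases e : w[u]? with _ | a
  · have h3 := List.getElem?_eq_none_iff.mp e
    have h4 : u = w.length := le_antisymm hu h3
    rw [show codeB none = 0 from rfl, cif_z, h4, List.take_length]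
    exact UM.Inv.m1 0 fun j hj => absurd hj (Nat.not_lt_zero j)
  · have hu' : u < w.length := (List.getElem?_eq_some_iff.mp e).1
    have h3 := num_take_succ w u a e
    have h4 : codeB (some a) = 1 + a.toNat := rfl
    rw [h4, cif_n (by omega)]
    have h5 : num (w.take u) - 2 ^ u + (1 + a.toNat - 1) * 2 ^ u =
        num (w.take (u + 1)) - 2 ^ (u + 1) := by
      rw [h3, Nat.add_sub_cancel_left, pow_succ, Nat.mul_add, Nat.mul_comm a.toNat]
      omega
    have h6 : 2 * (2 ^ u - 1) + 1 = 2 ^ (u + 1) - 1 := by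
      rw [pow_succ]
      omega
    rw [h5, h6]
    exact .m0 (u + 1) hu'

end

/-- FI0. -/
theorem gFI0 : GoalFI0 := by
  intro β _ M hOk w x γ hγ hx h2
  have hγ' : γ = 0 ∨ γ = 1 := by omega
  cases hx with
  | rej =>
    rcases hγ' with rfl | rfl
    · rw [nx_zero, nextN4]
      exact .rej
    · exact inv_one M .rej (by
        show eq01 4 1 * _ + eq01 4 2 * _ = 0
        rw [show eq01 4 1 = 0 from rfl, show eq01 4 2 = 0 from rfl, Nat.zero_mul, Nat.zero_mul])
  | m0 u hu =>
    rcases hγ' with rfl | rfl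
    · rw [nx_zero]
      exact st0 M w u hu
    · exact inv_one M (.m0 u hu) (by
        show eq01 0 1 * _ + eq01 0 2 * _ = 0
        rw [show eq01 0 1 = 0 from rfl, show eq01 0 2 = 0 from rfl, Nat.zero_mul, Nat.zero_mul])
  | m1 i h =>
    by_cases hh : M.h (M.orun (num w) i) = 0
    · rw [nx_gq M w _ γ (by
        show eq01 1 1 * eq01 (M.h (M.orun (num w) i)) 0 + eq01 1 2 * _ = 1
        rw [hh, show eq01 1 1 = 1 from rfl, show eq01 0 0 = 1 from rfl,
          show eq01 1 2 = 0 from rfl, Nat.zero_mul]), nextN1, hh, cif_z]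
      have h0 : toF (M.N (M.orun (num w) i)) (M.q (M.orun (num w) i)) (M.b (M.orun (num w) i)) 0 0 =
          fun _ => (0, 0) := by
        funext j
        simp [toF, dig]
      refine .m2 i γ 0 0 0 (root _ _) 0 0 0 (M.orun (num w) i) rfl (fun j hj => ?_) hγ
        (Nat.pow_pos (by norm_num)) (Nat.zero_le _) (Nat.pow_pos (by norm_num)) ?_
        (Nat.pow_pos (Nat.pow_pos (by norm_num))) (Nat.pow_pos (Nat.pow_pos (by norm_num))) ?_
      · rcases Nat.lt_or_eq_of_le hj with h3 | h3
        · exact h j h3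
        · rw [h3]
          exact hh
      · rw [Nat.zero_min]
        rfl
      · rw [h0]
        exact ⟨fun _ => 0, fun _ => Nat.pow_pos (by norm_num), rfl⟩
    · have hg : M.gq (ctS (M.orun (num w) i)) = 0 := by
        show eq01 1 1 * eq01 (M.h (M.orun (num w) i)) 0 + eq01 1 2 * _ = 0
        have h3 : eq01 (M.h (M.orun (num w) i)) 0 = 0 := if_neg hh
        rw [h3, show eq01 1 2 = 0 from rfl, Nat.zero_mul, Nat.mul_zero]
      rcases hγ' with rfl | rfl
      · rw [nx_zero, nextN1, cif_n hh]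
        by_cases ho : M.out (M.orun (num w) i) = 0
        · rw [ho, cif_z]
          exact .rej
        · rw [cif_n ho]
          exact .m3 ⟨i, h, hh, ho⟩
      · exact inv_one M (.m1 i h) hg
  | m2 => exact absurd rfl h2
  | m3 h =>
    rcases hγ' with rfl | rfl
    · rw [nx_zero, nextN3]
      exact .m3 h
    · exact inv_one M (.m3 h) (by
        show eq01 3 1 * _ + eq01 3 2 * _ = 0
        rw [show eq01 3 1 = 0 from rfl, show eq01 3 2 = 0 from rfl, Nat.zero_mul, Nat.zero_mul])

end Pool.Agent.Helper26.UR
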